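import Pool.Agent.Work.MP_36d6be_co_V.Final

/-!
MP_36d6be_co, Q1: every rational-area set in real `ℓ²` is countable.
-/

namespace Pool.Agent.Results.MP_36d6be_co.CountableSets

open Pool.Agent.Work.MP_36d6be_co

theorem result (S : Set L2) (hS : IsRationalAreaSet S) : S.Countable := by
  by_contra h
  exact Pool.Agent.Work.MP_36d6be_co_V.no_infinite_chain (chain_of_uncountable S h hS)

end Pool.Agent.Results.MP_36d6be_co.CountableSets
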